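import Pool.Agent.H94.DeltaDefs
import Pool.Agent.H94.DeltaSpace

set_option autoImplicit false

namespace Pool.Agent.Results.MP_145b75_an.NotDelta

open Pool.Agent.H94.DeltaDefs

/-- There is a bounded operator on a complex Banach space which is uniformly recurrent but not
Delta-star recurrent. -/
theorem result : ∃ (X : Type) (_ : NormedAddCommGroup X) (_ : NormedSpace ℂ X)
    (_ : CompleteSpace X) (S : X →L[ℂ] X), Dense (URec S) ∧ ¬ Dense (DRec S) :=
  Pool.Agent.H94.DeltaSpace.main

end Pool.Agent.Results.MP_145b75_an.NotDelta
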