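import Mathlib
import Pool.Agent.H93.WMSpace

set_option autoImplicit false

namespace Pool.Agent.Results.MP_145b75_an.UniformNotIP

open Pool.Agent.H93 RecDefs

theorem result : ∃ (X : Type) (_ : NormedAddCommGroup X) (_ : NormedSpace ℝ X)
    (_ : CompleteSpace X) (T : X →L[ℝ] X), Dense (Rec Synd T) ∧
      ¬ Dense (Rec IPStar T) ∧ ¬ Dense (Rec DeltaStar T) := by
  obtain ⟨X, _, _, _, T, h1, h2⟩ := RO.exWM
  refine ⟨X, _, _, inferInstance, T, h1, h2, fun h => h2 (h.mono ?_)⟩
  exact fun x hx U hU => delta_ip (hx U hU)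

end Pool.Agent.Results.MP_145b75_an.UniformNotIP
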